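import Mathlib

set_option autoImplicit false

/-!
Rotation systems (combinatorial cellular embeddings in closed orientable surfaces) of simple graphs.
-/

namespace Pool.Agent.Y414.Genus

open SimpleGraph

/-- A rotation system of a simple graph: a permutation of the darts (directed edges) which permutes
the darts starting at each vertex cyclically. -/
structure RotationSystem {V : Type} (G : SimpleGraph V) where
  rot : Equiv.Perm G.Dart
  fst_rot : ∀ d : G.Dart, (rot d).fst = d.fst
  cyclic : ∀ d d' : G.Dart, d.fst = d'.fst → rot.SameCycle d d'

namespace RotationSystem

variable {V : Type} {G : SimpleGraph V}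

/-- The face permutation: the dart `d` is followed, on the boundary walk of the region on its side,
by the dart after the reverse of `d` in the rotation at the end of `d`. -/
def face (R : RotationSystem G) : Equiv.Perm G.Dart where
  toFun d := R.rot d.symm
  invFun d := (R.rot.symm d).symm
  left_inv d := by simp
  right_inv d := by simp

/-- The regions: the cycles of the face permutation. -/
def Region (R : RotationSystem G) : Type := Quotient (Equiv.Perm.SameCycle.setoid R.face)

/-- The surface of the embedding has genus `g` (Euler's formula). -/
def HasGenus (R : RotationSystem G) (g : ℕ) : Prop :=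
  (Nat.card V : ℤ) - (Nat.card G.edgeSet : ℤ) + (Nat.card R.Region : ℤ) = 2 - 2 * (g : ℤ)

/-- The boundary walk of some region traverses an edge twice: once along the dart `d` and once
along its reverse. -/
def RepeatsEdge (R : RotationSystem G) : Prop := ∃ d : G.Dart, R.face.SameCycle d d.symm

end RotationSystem

/-- `g` is the (orientable) genus of `G`. -/
def IsGenus {V : Type} (G : SimpleGraph V) (g : ℕ) : Prop :=
  (∃ R : RotationSystem G, R.HasGenus g) ∧ ∀ (R : RotationSystem G) (h : ℕ), R.HasGenus h → g ≤ h

end Pool.Agent.Y414.Genus
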