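import Pool.Agent.Y414.Genus.Ten

set_option autoImplicit false

namespace Pool.Agent.Y414.Genus.Ten

open SimpleGraph Pool.Agent.Y414.Genus

section Faces

variable (R : RotationSystem G) (s : ℕ)

/-- `x` and `y` lie on the same face -/
def Rel (x y : ℕ) : Prop :=
  ∃ (hx : x < 30) (hy : y < 30), R.face.SameCycle (D ⟨x, hx⟩) (D ⟨y, hy⟩)

variable {R s}

lemma Rel.step (hf : ∀ x : Fin 30, R.face (D x) = D ⟨g s x.val, g_lt s x⟩) {x y : ℕ}
    (h : Rel R x y) : Rel R x (g s y) := by
  obtain ⟨hx, hy, h⟩ := h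
  refine ⟨hx, g_lt s ⟨y, hy⟩, h.trans ?_⟩
  rw [← hf ⟨y, hy⟩]
  exact (Equiv.Perm.SameCycle.refl _ _).apply_right

lemma orb_rel (hf : ∀ x : Fin 30, R.face (D x) = D ⟨g s x.val, g_lt s x⟩) (x0 : ℕ) :
    ∀ (k x m : ℕ), (∀ i, Nat.testBit m i = true → Rel R x0 i) → Rel R x0 x →
      ∀ i, Nat.testBit (orb s k x m) i = true → Rel R x0 i
  | 0, _, _, hm, _ => hm
  | k + 1, x, m, hm, hx => by
    refine orb_rel hf x0 k (g s x) (m ||| (1 <<< x)) ?_ (hx.step hf)
    intro i hi
    rw [Nat.testBit_or, Bool.or_eq_true] at hi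
    rcases hi with hi | hi
    · exact hm i hi
    · rw [Nat.one_shiftLeft, Nat.testBit_two_pow] at hi
      have : x = i := by simpa using hi
      rw [← this]; exact hx

lemma repB_get (m : ℕ) : ∀ x ≤ 30, repB m x = true →
    ∃ y : Fin 30, Nat.testBit m y.val = true ∧ Nat.testBit m (rev y).val = true
  | 0, _, h => by simp [repB] at h
  | x + 1, hx, h => by
    simp only [repB, Bool.or_eq_true, Bool.and_eq_true] at h
    rcases h with h | h
    · refine ⟨⟨x, by omega⟩, h.1, ?_⟩
      have hrev : ∀ x : Fin 30, (rev x).val = (revN >>> (5 * x.val)) % 32 := by decide +kernel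
      rw [hrev]; exact h.2
    · exact repB_get m x (by omega) h

/-- the invariant of `cover` -/
def Inv (R : RotationSystem G) (p : ℕ × ℕ × Bool) : Prop :=
  (∃ T : List ℕ, T.length = p.1 ∧ ∀ i, Nat.testBit p.2.1 i = true → ∃ t ∈ T, Rel R t i) ∧
    (p.2.2 = true → R.RepeatsEdge)

lemma cover_inv (hf : ∀ x : Fin 30, R.face (D x) = D ⟨g s x.val, g_lt s x⟩) :
    ∀ (x : ℕ), x ≤ 30 → ∀ (c m : ℕ) (b : Bool), Inv R (c, m, b) → Inv R (cover s x c m b)
  | 0, _, _, _, _, h => h
  | x + 1, hx, c, m, b, h => by
    unfold cover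
    cases hm : Nat.testBit m x
    · rw [cond_false]
      refine cover_inv hf x (by omega) _ _ _ ?_
      have ho : ∀ i, Nat.testBit (orb s 30 x 0) i = true → Rel R x i :=
        orb_rel hf x 30 x 0 (by simp) ⟨by omega, by omega, Equiv.Perm.SameCycle.refl _ _⟩
      obtain ⟨⟨T, hT, hT2⟩, hb⟩ := h
      refine ⟨⟨x :: T, by simpa using hT, ?_⟩, ?_⟩
      · intro i hi
        have hi' : Nat.testBit (m ||| orb s 30 x 0) i = true := hi
        rw [Nat.testBit_or, Bool.or_eq_true] at hi'
        rcases hi' with hi' | hi'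
        · obtain ⟨t, ht, h⟩ := hT2 i hi'
          exact ⟨t, List.mem_cons_of_mem _ ht, h⟩
        · exact ⟨x, List.mem_cons_self .., ho i hi'⟩
      · intro h1
        have h2 : (b || repB (orb s 30 x 0) 30) = true := h1
        rw [Bool.or_eq_true] at h2
        rcases h2 with h2 | h2
        · exact hb h2
        · obtain ⟨y, h3, h4⟩ := repB_get _ 30 le_rfl h2
          obtain ⟨_, _, h5⟩ := ho _ h3
          obtain ⟨_, _, h6⟩ := ho _ h4
          refine ⟨D y, ?_⟩
          rw [D_symm]
          exact h5.symm.trans h6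
    · rw [cond_true]
      exact cover_inv hf x (by omega) _ _ _ h

end Faces

lemma faces_le (R : RotationSystem G) :
    Nat.card R.Region < 5 ∨ (Nat.card R.Region ≤ 5 ∧ R.RepeatsEdge) := by
  choose b hb using rot_cases R
  have hf := face_eq R b hb
  have hlt : Nat.ofBits b < 1024 := by
    have := Nat.ofBits_lt_two_pow b
    simpa using this
  have hok := allB_get ok_all _ hlt
  have hI := cover_inv hf 30 le_rfl 0 0 false ⟨⟨[], rfl, by simp⟩, by simp⟩
  unfold okB at hok
  rcases hc : cover (Nat.ofBits b) 30 0 0 false with ⟨c, m, bb⟩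
  rw [hc] at hok hI
  simp only [Bool.and_eq_true, Bool.or_eq_true] at hok
  obtain ⟨h1, h2⟩ := hok
  have hm : m = 2 ^ 30 - 1 := Nat.eq_of_beq_eq_true h1
  obtain ⟨⟨T, hT, hT2⟩, hbad⟩ := hI
  have hcard : Nat.card R.Region ≤ c := by
    have hT' : T.length = c := hT
    rw [← hT']
    -- a surjection from `Fin T.length`
    have hall : ∀ t ∈ T, t < 30 ∨ True := fun _ _ => Or.inr trivial
    let F : Fin T.length → R.Region := fun k =>
      if h : T.get k < 30 then Quotient.mk _ (D ⟨T.get k, h⟩) else Quotient.mk _ (D 0)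
    have hF : Function.Surjective F := by
      intro q
      induction q using Quotient.inductionOn with
      | h d =>
        obtain ⟨x, rfl⟩ := D_bij.2 d
        obtain ⟨t, ht, hx, hy, h⟩ := hT2 x.val (by
          show Nat.testBit m x.val = true
          rw [hm, Nat.testBit_two_pow_sub_one]
          simp [x.isLt])
        obtain ⟨k, hk⟩ := List.get_of_mem ht
        refine ⟨k, ?_⟩
        have h3 : T.get k < 30 := by rw [hk]; exact hx
        show (if h : T.get k < 30 then Quotient.mk _ (D ⟨T.get k, h⟩) else Quotient.mk _ (D 0)) = _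
        rw [dif_pos h3]
        apply Quotient.sound
        have h4 : (⟨T.get k, h3⟩ : Fin 30) = ⟨t, hx⟩ := Fin.ext hk
        rw [h4]
        exact h
    have := Nat.card_le_card_of_surjective F hF
    simpa using this
  rcases h2 with h2 | ⟨h2, h3⟩
  · left
    have : c < 5 := by simpa [Nat.blt_eq] using h2
    omega
  · right
    have : c = 5 := Nat.eq_of_beq_eq_true h2
    exact ⟨by omega, hbad h3⟩

/-! an embedding with five faces -/

def rotT : ℕ := 0
def s0 : ℕ := 165

def rot0 (x : Fin 30) : Fin 30 :=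
  Fin.ofNat 30 (3 * (x.val / 3) + (x.val % 3 + (cond (Nat.testBit s0 (x.val / 3)) 1 2)) % 3)
def rot1 (x : Fin 30) : Fin 30 :=
  Fin.ofNat 30 (3 * (x.val / 3) + (x.val % 3 + (cond (Nat.testBit s0 (x.val / 3)) 2 1)) % 3)

def ρ : Equiv.Perm (Fin 30) where
  toFun := rot0
  invFun := rot1
  left_inv := by decide +kernel
  right_inv := by decide +kernel

lemma ρ_src : ∀ x : Fin 30, src (ρ x) = src x := by decide +kernel

lemma ρ_cyc : ∀ x y : Fin 30, src x = src y → y = x ∨ y = ρ x ∨ y = ρ (ρ x) := by decide +kernel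

noncomputable def R0 : RotationSystem G where
  rot := e.permCongr ρ
  fst_rot d := by
    obtain ⟨x, rfl⟩ := D_bij.2 d
    have h1 : e.permCongr ρ (D x) = D (ρ x) := by
      rw [Equiv.permCongr_apply, ← e_apply, Equiv.symm_apply_apply]; rfl
    rw [h1]
    exact ρ_src x
  cyclic d d' h := by
    obtain ⟨x, rfl⟩ := D_bij.2 d
    obtain ⟨y, rfl⟩ := D_bij.2 d'
    have h1 : ∀ x, e.permCongr ρ (D x) = D (ρ x) := by
      intro x
      rw [Equiv.permCongr_apply, ← e_apply, Equiv.symm_apply_apply]; rfl
    rcases ρ_cyc x y h with rfl | rfl | rfl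
    · exact Equiv.Perm.SameCycle.refl _ _
    · rw [← h1]; exact (Equiv.Perm.SameCycle.refl _ _).apply_right
    · rw [← h1, ← h1]; exact (Equiv.Perm.SameCycle.refl _ _).apply_right.apply_right

lemma R0_face (x : Fin 30) : R0.face (D x) = D (ρ (rev x)) := by
  show e.permCongr ρ (D x).symm = _
  rw [D_symm, Equiv.permCongr_apply, ← e_apply, Equiv.symm_apply_apply]; rfl

/-- labels of the five faces -/
def lab (x : Fin 30) : Fin 5 :=
  Fin.ofNat 5 ((0x224312143421234220132301023210 >>> (4 * x.val)) % 16)

lemma lab_inv : ∀ x : Fin 30, lab (ρ (rev x)) = lab x := by decide +kernel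

lemma lab_surj : ∀ k : Fin 5, ∃ x : Fin 30, lab x = k := by decide +kernel

lemma lab_face (d : G.Dart) : lab (e.symm (R0.face d)) = lab (e.symm d) := by
  obtain ⟨x, rfl⟩ := D_bij.2 d
  rw [R0_face, ← e_apply, ← e_apply, Equiv.symm_apply_apply, Equiv.symm_apply_apply]
  exact lab_inv x

lemma lab_pow (n : ℕ) : ∀ d : G.Dart, lab (e.symm ((R0.face ^ n) d)) = lab (e.symm d) := by
  induction n with
  | zero => intro d; rfl
  | succ n ih => intro d; rw [pow_succ, Equiv.Perm.mul_apply, ih, lab_face]

lemma lab_same {d d' : G.Dart} (h : R0.face.SameCycle d d') :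
    lab (e.symm d) = lab (e.symm d') := by
  obtain ⟨n, rfl⟩ := h
  obtain ⟨k, rfl | rfl⟩ := n.eq_nat_or_neg
  · rw [zpow_natCast, lab_pow]
  · rw [zpow_neg, zpow_natCast]
    have h1 := lab_pow k ((R0.face ^ k)⁻¹ d)
    rw [← Equiv.Perm.mul_apply, mul_inv_cancel, Equiv.Perm.one_apply] at h1
    exact h1

instance : Finite G.Dart := Finite.of_equiv _ e

lemma R0_faces : 5 ≤ Nat.card R0.Region := by
  have : Finite R0.Region := Quotient.finite _
  let F : R0.Region → Fin 5 := Quotient.lift (fun d => lab (e.symm d)) (fun _ _ h => lab_same h)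
  have hF : Function.Surjective F := by
    intro k
    obtain ⟨x, hx⟩ := lab_surj k
    refine ⟨Quotient.mk _ (D x), ?_⟩
    show lab (e.symm (D x)) = k
    rw [← e_apply, Equiv.symm_apply_apply]; exact hx
  have := Nat.card_le_card_of_surjective F hF
  simpa using this

lemma card_edges : Nat.card G.edgeSet = 15 := by
  rw [Nat.card_eq_fintype_card, ← edgeFinset_card]
  decide +kernel

lemma hasGenus_iff (R : RotationSystem G) (k : ℕ) :
    R.HasGenus k ↔ Nat.card R.Region + 2 * k = 7 := by
  unfold RotationSystem.HasGenus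
  rw [card_edges, Nat.card_eq_fintype_card, Fintype.card_fin]
  omega

/-! connectivity -/

/-- number of darts from the set with mask `m` to its complement -/
def outD (m : ℕ) : ℕ → ℕ
  | 0 => 0
  | x + 1 => cond (Nat.testBit m (x / 3) && !(Nat.testBit m ((dstN >>> (4 * x)) % 16)))
      (outD m x + 1) (outD m x)

def cutB (m : ℕ) : Bool := Nat.beq m 0 || (Nat.beq m 1023 || Nat.ble 3 (outD m 30))

lemma cut_all : allB cutB 1024 = true := by decide +kernel

lemma outD_eq (b : Fin 10 → Bool) : ∀ k ≤ 30, outD (Nat.ofBits b) k =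
    ((Finset.univ : Finset (Fin 30)).filter
      (fun x => x.val < k ∧ b (src x) = true ∧ b (dst x) = false)).card
  | 0, _ => by simp [outD]
  | k + 1, hk => by
    have ih := outD_eq b k (by omega)
    have hd : ∀ x : Fin 30, (dst x).val = (dstN >>> (4 * x.val)) % 16 := by decide +kernel
    have h1 : Nat.testBit (Nat.ofBits b) (k / 3) = b (src ⟨k, by omega⟩) := by
      rw [Nat.testBit_ofBits_lt b (k / 3) (by omega)]; rfl
    have h2 : Nat.testBit (Nat.ofBits b) ((dstN >>> (4 * k)) % 16) = b (dst ⟨k, by omega⟩) := by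
      have h3 := hd ⟨k, by omega⟩
      simp only at h3
      rw [← h3, Nat.testBit_ofBits_lt b _ (dst ⟨k, by omega⟩).isLt]
    unfold outD
    rw [h1, h2, ih]
    by_cases h : b (src ⟨k, by omega⟩) = true ∧ b (dst ⟨k, by omega⟩) = false
    · rw [h.1, h.2]
      simp only [Bool.not_false, Bool.and_self, cond_true]
      have h4 : (Finset.univ : Finset (Fin 30)).filter
          (fun x => x.val < k + 1 ∧ b (src x) = true ∧ b (dst x) = false) =
          insert ⟨k, by omega⟩ ((Finset.univ : Finset (Fin 30)).filter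
          (fun x => x.val < k ∧ b (src x) = true ∧ b (dst x) = false)) := by
        ext x
        simp only [Finset.mem_filter, Finset.mem_univ, true_and, Finset.mem_insert]
        constructor
        · rintro ⟨h5, h6⟩
          rcases Nat.lt_succ_iff_lt_or_eq.1 h5 with h7 | h7
          · exact Or.inr ⟨h7, h6⟩
          · exact Or.inl (Fin.ext h7)
        · rintro (rfl | ⟨h5, h6⟩)
          · exact ⟨Nat.lt_succ_self _, h⟩
          · exact ⟨by omega, h6⟩
      rw [h4, Finset.card_insert_of_notMem]
      simp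
    · have h5 : (b (src ⟨k, by omega⟩) && !b (dst ⟨k, by omega⟩)) = false := by
        cases h6 : b (src ⟨k, by omega⟩) <;> cases h7 : b (dst ⟨k, by omega⟩) <;> simp_all
      rw [h5, cond_false]
      congr 1
      ext x
      simp only [Finset.mem_filter, Finset.mem_univ, true_and]
      constructor
      · rintro ⟨h6, h7⟩; exact ⟨by omega, h7⟩
      · rintro ⟨h6, h7⟩
        refine ⟨?_, h7⟩
        rcases Nat.lt_succ_iff_lt_or_eq.1 h6 with h8 | h8
        · exact h8
        · have h9 : x = ⟨k, by omega⟩ := Fin.ext h8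
          rw [h9] at h7
          exact absurd h7 h

lemma edge_inj : ∀ x y : Fin 30, s(src x, dst x) = s(src y, dst y) → x = y ∨ x = rev y := by
  decide +kernel

theorem conn3 : G.IsEdgeConnected 3 := by
  classical
  intro u v F hF
  by_contra hno
  let b : Fin 10 → Bool := fun w => decide ((G.deleteEdges F).Reachable u w)
  have hbu : b u = true := by simp [b]
  have hbv : b v = false := by simpa [b] using hno
  have hlt : Nat.ofBits b < 1024 := by
    have := Nat.ofBits_lt_two_pow b
    simpa using this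
  have hok := allB_get cut_all _ hlt
  unfold cutB at hok
  simp only [Bool.or_eq_true] at hok
  rcases hok with h | h | h
  · have h1 := Nat.eq_of_beq_eq_true h
    have h2 := Nat.testBit_ofBits_lt b u.val u.isLt
    rw [h1] at h2
    simp [hbu] at h2
  · have h1 := Nat.eq_of_beq_eq_true h
    have h2 := Nat.testBit_ofBits_lt b v.val v.isLt
    rw [h1] at h2
    have h3 : Nat.testBit 1023 v.val = true := by
      have : ∀ v : Fin 10, Nat.testBit 1023 v.val = true := by decide
      exact this v
    rw [h3] at h2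
    simp [hbv] at h2
  · have h1 : 3 ≤ outD (Nat.ofBits b) 30 := Nat.le_of_ble_eq_true h
    rw [outD_eq b 30 le_rfl] at h1
    have hsub : (((Finset.univ : Finset (Fin 30)).filter
        (fun x => x.val < 30 ∧ b (src x) = true ∧ b (dst x) = false)).image
        (fun x => s(src x, dst x)) : Set (Sym2 (Fin 10))) ⊆ F := by
      intro p hp
      rw [Finset.mem_coe, Finset.mem_image] at hp
      obtain ⟨x, hx, rfl⟩ := hp
      rw [Finset.mem_filter] at hx
      obtain ⟨_, _, h2, h3⟩ := hx
      by_contra hn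
      have h4 : (G.deleteEdges F).Adj (src x) (dst x) := by
        rw [deleteEdges_adj]; exact ⟨adj_dart x, hn⟩
      have h5 : (G.deleteEdges F).Reachable u (src x) := by simpa [b] using h2
      have h6 : (G.deleteEdges F).Reachable u (dst x) := h5.trans h4.reachable
      have h7 : b (dst x) = true := by simp [b, h6]
      rw [h3] at h7; exact absurd h7 (by simp)
    have hcard : (((Finset.univ : Finset (Fin 30)).filter
        (fun x => x.val < 30 ∧ b (src x) = true ∧ b (dst x) = false)).image
        (fun x => s(src x, dst x))).card = ((Finset.univ : Finset (Fin 30)).filter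
        (fun x => x.val < 30 ∧ b (src x) = true ∧ b (dst x) = false)).card := by
      apply Finset.card_image_of_injOn
      intro x hx y hy hxy
      rw [Finset.mem_coe, Finset.mem_filter] at hx hy
      rcases edge_inj x y hxy with h2 | h2
      · exact h2
      · exfalso
        have h3 := hx.2.2.1
        rw [h2, (rev_aux y).1, hy.2.2.2] at h3
        exact absurd h3 (by simp)
    have h2 := Set.encard_le_encard hsub
    rw [Set.encard_coe_eq_coe_finsetCard, hcard] at h2
    have h3 := lt_of_le_of_lt h2 hF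
    have h4 : ((Finset.univ : Finset (Fin 30)).filter
        (fun x => x.val < 30 ∧ b (src x) = true ∧ b (dst x) = false)).card < 3 := by
      exact_mod_cast h3
    omega

theorem cubic : ∀ v, (G.neighborSet v).ncard = 3 := by
  intro v
  rw [Set.ncard_eq_toFinset_card']
  revert v
  decide +kernel

/-- the answer -/
theorem main : ∃ G : SimpleGraph (Fin 10), (∀ v, (G.neighborSet v).ncard = 3) ∧
    G.IsEdgeConnected 3 ∧ IsGenus G 1 ∧
    ∀ R : RotationSystem G, R.HasGenus 1 → R.RepeatsEdge := by
  refine ⟨G, cubic, conn3, ⟨⟨R0, ?_⟩, ?_⟩, ?_⟩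
  · rw [hasGenus_iff]
    have h1 := R0_faces
    rcases faces_le R0 with h2 | ⟨h2, _⟩ <;> omega
  · intro R k hk
    rw [hasGenus_iff] at hk
    rcases faces_le R with h2 | ⟨h2, _⟩ <;> omega
  · intro R hR
    rw [hasGenus_iff] at hR
    rcases faces_le R with h2 | ⟨_, h2⟩
    · omega
    · exact h2

end Pool.Agent.Y414.Genus.Ten
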