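import Pool.Agent.Y414.Genus.Defs

set_option autoImplicit false

/-!
A 3-connected cubic graph with 10 vertices and genus one such that all its embeddings in the torus
have a region whose boundary walk traverses an edge twice.
-/

namespace Pool.Agent.Y414.Genus.Ten

open SimpleGraph Pool.Agent.Y414.Genus

/-- adjacency table, bit `10 a + b` -/
def adjN : ℕ := 138775131778391624934992408604
/-- dart table: the reverse of the dart `x`, five bits each -/
def revN : ℕ := 653053053706171900041930979010464262832501030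
/-- the end of the dart `x`, four bits each -/
def dstN : ℕ := 365152234007620066601134872441594930

def adjB (a b : Fin 10) : Bool := Nat.testBit adjN (10 * a.val + b.val)

/-- two copies of `K_{2,3}` joined by three independent edges -/
def G : SimpleGraph (Fin 10) where
  Adj a b := adjB a b = true
  symm := ⟨by decide +kernel⟩
  loopless := ⟨by decide +kernel⟩

instance : DecidableRel G.Adj := fun a b => inferInstanceAs (Decidable (adjB a b = true))

def src (x : Fin 30) : Fin 10 := ⟨x.val / 3, by omega⟩
def dst (x : Fin 30) : Fin 10 := Fin.ofNat 10 ((dstN >>> (4 * x.val)) % 16)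
def rev (x : Fin 30) : Fin 30 := Fin.ofNat 30 ((revN >>> (5 * x.val)) % 32)

lemma adj_dart : ∀ x : Fin 30, adjB (src x) (dst x) = true := by decide +kernel

def D (x : Fin 30) : G.Dart := ⟨(src x, dst x), adj_dart x⟩

lemma inj_aux : ∀ x y : Fin 30, src x = src y → dst x = dst y → x = y := by decide +kernel

lemma surj_aux : ∀ a b : Fin 10, adjB a b = true → ∃ x : Fin 30, src x = a ∧ dst x = b := by
  decide +kernel

lemma D_bij : Function.Bijective D := by
  constructor
  · intro x y h
    have h1 : (D x).toProd = (D y).toProd := by rw [h]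
    exact inj_aux x y (congrArg Prod.fst h1) (congrArg Prod.snd h1)
  · intro d
    obtain ⟨x, h1, h2⟩ := surj_aux d.fst d.snd d.adj
    refine ⟨x, ?_⟩
    ext1
    exact Prod.ext h1 h2

noncomputable def e : Fin 30 ≃ G.Dart := Equiv.ofBijective D D_bij

lemma e_apply (x : Fin 30) : e x = D x := rfl

lemma rev_aux : ∀ x : Fin 30, src (rev x) = dst x ∧ dst (rev x) = src x := by decide +kernel

lemma D_symm (x : Fin 30) : (D x).symm = D (rev x) := by
  ext1
  obtain ⟨h1, h2⟩ := rev_aux x
  exact Prod.ext h1.symm h2.symm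

/-- the `i`-th dart at the vertex `v` -/
def dt (v : Fin 10) (i : Fin 3) : Fin 30 := ⟨3 * v.val + i.val, by omega⟩

lemma src_dt (v : Fin 10) (i : Fin 3) : src (dt v i) = v := by
  apply Fin.ext
  show (3 * v.val + i.val) / 3 = v.val
  omega

lemma dt_surj (x : Fin 30) (v : Fin 10) (h : src x = v) : ∃ i, x = dt v i := by
  subst h
  exact ⟨⟨x.val % 3, by omega⟩, Fin.ext (by show x.val = 3 * (x.val / 3) + x.val % 3; omega)⟩

lemma dt_inj {v : Fin 10} {i j : Fin 3} (h : dt v i = dt v j) : i = j := by
  have h1 := congrArg Fin.val h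
  have h2 : 3 * v.val + i.val = 3 * v.val + j.val := h1
  exact Fin.ext (by omega)

lemma three (j : Fin 3 → Fin 3) : (∀ a b, j a = j b → a = b) → (∀ i, j i ≠ i) →
    (∀ i, j i = i + 1) ∨ (∀ i, j i = i + 2) := by
  revert j; decide +kernel

/-- a rotation system of `G` is given by one bit for every vertex -/
lemma rot_cases (R : RotationSystem G) (v : Fin 10) :
    ∃ b : Bool, ∀ i : Fin 3, R.rot (D (dt v i)) = D (dt v (i + if b then 1 else 2)) := by
  have h1 : ∀ i : Fin 3, ∃ j : Fin 3, R.rot (D (dt v i)) = D (dt v j) := by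
    intro i
    obtain ⟨x, hx⟩ := D_bij.2 (R.rot (D (dt v i)))
    have h2 : src x = v := by
      have h3 := R.fst_rot (D (dt v i))
      rw [← hx] at h3
      have h4 : (D x).fst = src x := rfl
      have h5 : (D (dt v i)).fst = v := src_dt v i
      rw [← h4, h3, h5]
    obtain ⟨j, rfl⟩ := dt_surj x v h2
    exact ⟨j, hx.symm⟩
  choose j hj using h1
  have hinj : ∀ a b, j a = j b → a = b := by
    intro a b hab
    have h2 : R.rot (D (dt v a)) = R.rot (D (dt v b)) := by rw [hj, hj, hab]
    exact dt_inj (D_bij.1 (R.rot.injective h2))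
  have hne : ∀ i, j i ≠ i := by
    intro i hi
    have hfix : R.rot (D (dt v i)) = D (dt v i) := by rw [hj, hi]
    have hs := R.cyclic (D (dt v i)) (D (dt v (i + 1))) (by
      show src (dt v i) = src (dt v (i + 1)); rw [src_dt, src_dt])
    obtain ⟨n, hn⟩ := hs
    have h3 : (R.rot ^ n) (D (dt v i)) = D (dt v i) :=
      Equiv.Perm.zpow_apply_eq_self_of_apply_eq_self hfix n
    rw [h3] at hn
    have h4 := dt_inj (D_bij.1 hn)
    revert h4
    clear hn h3 hfix hi
    revert i
    decide
  rcases three j hinj hne with h | h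
  · exact ⟨true, fun i => by rw [hj, h]; rfl⟩
  · exact ⟨false, fun i => by rw [hj, h]; rfl⟩

/-- the face permutation of the rotation system with bits `s` on the darts `x < 30` -/
def g (s x : ℕ) : ℕ :=
  let y := (revN >>> (5 * x)) % 32
  3 * (y / 3) + (y % 3 + (cond (Nat.testBit s (y / 3)) 1 2)) % 3

lemma g_lt (s : ℕ) (x : Fin 30) : g s x.val < 30 := by
  have h : ∀ x : Fin 30, (revN >>> (5 * x.val)) % 32 < 30 := by decide +kernel
  have h1 := h x
  unfold g
  simp only
  omega

lemma face_eq (R : RotationSystem G) (b : Fin 10 → Bool)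
    (hb : ∀ v, ∀ i : Fin 3, R.rot (D (dt v i)) = D (dt v (i + if b v then 1 else 2)))
    (x : Fin 30) : R.face (D x) = D ⟨g (Nat.ofBits b) x.val, g_lt _ x⟩ := by
  show R.rot (D x).symm = _
  rw [D_symm]
  obtain ⟨i, hi⟩ := dt_surj (rev x) (src (rev x)) rfl
  rw [hi, hb]
  congr 1
  apply Fin.ext
  have hrev : ∀ x : Fin 30, (rev x).val = (revN >>> (5 * x.val)) % 32 := by decide +kernel
  have h1 : (rev x).val = 3 * (src (rev x)).val + i.val := congrArg Fin.val hi
  have h2 : (src (rev x)).val = (rev x).val / 3 := rfl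
  have h3 : i.val = (rev x).val % 3 := by omega
  have h4 : Nat.testBit (Nat.ofBits b) ((rev x).val / 3) = b (src (rev x)) := by
    rw [Nat.testBit_ofBits_lt b ((rev x).val / 3) (by omega)]
    rfl
  unfold g dt
  simp only
  rw [← hrev x, h4, ← h3, ← h2]
  congr 1
  cases b (src (rev x))
  · simp only [cond_false, Bool.false_eq_true, if_false]
    rw [Fin.val_add]; rfl
  · simp only [cond_true, if_true]
    rw [Fin.val_add]; rfl

/-- mask of the first `k` elements of the orbit of `x` -/
def orb (s : ℕ) : ℕ → ℕ → ℕ → ℕ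
  | 0, _, m => m
  | k + 1, x, m => orb s k (g s x) (m ||| (1 <<< x))

/-- greedy covering by orbits: number of orbits, total mask, and whether some orbit contains a dart
and its reverse -/
def repB (m : ℕ) : ℕ → Bool
  | 0 => false
  | x + 1 => (Nat.testBit m x && Nat.testBit m ((revN >>> (5 * x)) % 32)) || repB m x

def cover (s : ℕ) : ℕ → ℕ → ℕ → Bool → ℕ × ℕ × Bool
  | 0, c, m, b => (c, m, b)
  | x + 1, c, m, b =>
    cond (Nat.testBit m x) (cover s x c m b)
      (cover s x (c + 1) (m ||| orb s 30 x 0) (b || repB (orb s 30 x 0) 30))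

def okB (s : ℕ) : Bool :=
  match cover s 30 0 0 false with
  | (c, m, b) => Nat.beq m (2 ^ 30 - 1) && (Nat.blt c 5 || (Nat.beq c 5 && b))

def allB (f : ℕ → Bool) : ℕ → Bool
  | 0 => true
  | n + 1 => f n && allB f n

lemma allB_get {f : ℕ → Bool} : ∀ {n : ℕ}, allB f n = true → ∀ k < n, f k = true
  | 0, _, k, hk => absurd hk (by omega)
  | n + 1, h, k, hk => by
    simp only [allB, Bool.and_eq_true] at h
    rcases Nat.lt_succ_iff_lt_or_eq.1 hk with h1 | h1
    · exact allB_get h.2 k h1
    · rw [h1]; exact h.1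

lemma ok_all : allB okB 1024 = true := by decide +kernel

end Pool.Agent.Y414.Genus.Ten
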